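import Pool.Agent.H699.T.DT

set_option autoImplicit false

namespace Pool.Agent.H603.T.SUB

open Finset Classical
open Pool.Agent.H699.T

/-- transport of an algorithm along maps of points, answers and outputs -/
def cm {V V' A A' O O' : Type} (e : V' → V) (g : A → A') (h : O → O') : DT V' A' O → DT V A O'
  | .done o => .done (h o)
  | .ask x y k => .ask (e x) (e y) (fun a => cm e g h (k (g a)))

theorem cm_eval {V V' A A' O O' : Type} (e : V' → V) (g : A → A') (h : O → O')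
    (d : V → V → A) (P : DT V' A' O) :
    (cm e g h P).eval d = h (P.eval (fun x y => g (d (e x) (e y)))) := by
  induction P with
  | done o => rfl
  | ask x y k ih =>
    show DT.eval d (cm e g h (k (g (d (e x) (e y))))) = h (DT.eval _ (k (g (d (e x) (e y)))))
    exact ih _

theorem cm_cost {V V' A A' O O' : Type} (e : V' → V) (g : A → A') (h : O → O')
    (d : V → V → A) (P : DT V' A' O) :
    (cm e g h P).cost d = P.cost (fun x y => g (d (e x) (e y))) := by
  induction P with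
  | done o => rfl
  | ask x y k ih =>
    show DT.cost d (cm e g h (k (g (d (e x) (e y))))) + 1 =
      DT.cost _ (k (g (d (e x) (e y)))) + 1
    rw [ih]

theorem ex_equiv {Ω Ω' : Type} [Fintype Ω] [Fintype Ω'] (e : Ω ≃ Ω') (f : Ω' → ℝ) :
    ex (fun ω => f (e ω)) = ex f := by
  unfold ex
  rw [Fintype.card_congr e, Equiv.sum_comp]

theorem ex_pi {ι : Type} [Fintype ι] [DecidableEq ι] (β : ι → Type) [∀ i, Fintype (β i)]
    [∀ i, Nonempty (β i)] (i : ι) (f : β i → ℝ) :
    ex (fun ω : (∀ j, β j) => f (ω i)) = ex f := by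
  unfold ex
  have h1 : ∑ ω : (∀ j, β j), f (ω i) = ∑ p : β i × (∀ j : {j // j ≠ i}, β j), f p.1 :=
    Fintype.sum_equiv (Equiv.piSplitAt i β) _ _ (fun ω => rfl)
  have h2 : Fintype.card (∀ j, β j) =
      Fintype.card (β i) * Fintype.card (∀ j : {j // j ≠ i}, β j) := by
    rw [Fintype.card_congr (Equiv.piSplitAt i β), Fintype.card_prod]
  rw [h1, h2, Fintype.sum_prod_type]
  simp only [Finset.sum_const, Finset.card_univ, nsmul_eq_mul]
  rw [← Finset.mul_sum]
  have h3 : (Fintype.card (∀ j : {j // j ≠ i}, β j) : ℝ) ≠ 0 := by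
    exact_mod_cast Fintype.card_ne_zero
  have h4 : (Fintype.card (β i) : ℝ) ≠ 0 := by exact_mod_cast Fintype.card_ne_zero
  push_cast
  field_simp

theorem pr_zero {Ω : Type} [Fintype Ω] (P : Ω → Prop) (h : ∀ ω, ¬ P ω) : pr P = 0 := by
  unfold pr ex
  rw [Finset.sum_eq_zero, zero_div]
  intro ω _
  rw [if_neg (h ω)]

theorem pr_equiv {Ω Ω' : Type} [Fintype Ω] [Fintype Ω'] (e : Ω ≃ Ω') (A : Ω' → Prop) :
    pr (fun ω => A (e ω)) = pr A := ex_equiv e (fun ω => if A ω then 1 else 0)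

theorem pr_pi {ι : Type} [Fintype ι] [DecidableEq ι] (β : ι → Type) [∀ i, Fintype (β i)]
    [∀ i, Nonempty (β i)] (i : ι) (A : β i → Prop) :
    pr (fun ω : (∀ j, β j) => A (ω i)) = pr A := ex_pi β i (fun ω => if A ω then 1 else 0)

theorem att {α : Type} {d : α → α → ℝ} (h : S_TSPATT) (hd : IsMet d) (S : Finset α) :
    ∃ l : List α, (∀ x, x ∈ l ↔ x ∈ S) ∧ l.length = S.card ∧ cyc d l = tsp d S := by
  obtain ⟨l, h1, h2, h3⟩ := h α d hd S
  refine ⟨l, fun x => ?_, ?_, h3⟩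
  · rw [← h2, List.mem_toFinset]
  · rw [← h2, List.toFinset_card_of_nodup h1]

theorem walk_map {α β : Type} (d : α → α → ℝ) (e : β → α) (l : List β) :
    walk d (l.map e) = walk (fun x y => d (e x) (e y)) l := by
  induction l with
  | nil => rfl
  | cons a l ih =>
    cases l with
    | nil => rfl
    | cons b l =>
      show d (e a) (e b) + walk d ((b :: l).map e) = d (e a) (e b) + walk _ (b :: l)
      rw [ih]

theorem cyc_map {α β : Type} (d : α → α → ℝ) (e : β → α) (l : List β) :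
    cyc d (l.map e) = cyc (fun x y => d (e x) (e y)) l := by
  cases l with
  | nil => rfl
  | cons a l =>
    show walk d (e a :: (l.map e ++ [e a])) = walk _ (a :: (l ++ [a]))
    rw [← walk_map d e (a :: (l ++ [a]))]
    congr 1
    rw [List.map_cons, List.map_append, List.map_cons, List.map_nil]

theorem walk_le {α : Type} {d d' : α → α → ℝ} {c : ℝ} (l : List α)
    (h : ∀ x ∈ l, ∀ y ∈ l, d x y ≤ d' x y + c) (a : α)
    (ha : ∀ y ∈ l, d a y ≤ d' a y + c) :
    walk d (a :: l) ≤ walk d' (a :: l) + c * l.length := by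
  induction l generalizing a with
  | nil => simp [walk]
  | cons b l ih =>
    have h1 := ih (fun x hx y hy => h x (List.mem_cons_of_mem _ hx) y (List.mem_cons_of_mem _ hy)) b
      (fun y hy => h b List.mem_cons_self y (List.mem_cons_of_mem _ hy))
    have h2 := ha b List.mem_cons_self
    show d a b + walk d (b :: l) ≤ d' a b + walk d' (b :: l) + c * ((b :: l).length : ℝ)
    rw [List.length_cons]
    push_cast
    linarith

theorem cyc_le {α : Type} {d d' : α → α → ℝ} {c : ℝ} (l : List α)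
    (h : ∀ x ∈ l, ∀ y ∈ l, d x y ≤ d' x y + c) : cyc d l ≤ cyc d' l + c * l.length := by
  cases l with
  | nil => simp [cyc]
  | cons a l =>
    have hm : ∀ x ∈ l ++ [a], x ∈ a :: l := by
      intro x hx
      rcases List.mem_append.1 hx with hx | hx
      · exact List.mem_cons_of_mem _ hx
      · rw [List.mem_singleton.1 hx]; exact List.mem_cons_self
    have h1 := walk_le (d := d) (d' := d') (c := c) (l ++ [a])
      (fun x hx y hy => h x (hm x hx) y (hm y hy)) a
      (fun y hy => h a List.mem_cons_self y (hm y hy))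
    rw [List.length_append, List.length_singleton] at h1
    show walk d (a :: (l ++ [a])) ≤ walk d' (a :: (l ++ [a])) + c * ((a :: l).length : ℝ)
    rw [List.length_cons]
    exact h1

theorem cyc_mono {α : Type} {d d' : α → α → ℝ} (l : List α)
    (h : ∀ x ∈ l, ∀ y ∈ l, d x y ≤ d' x y) : cyc d l ≤ cyc d' l := by
  have := cyc_le (d := d) (d' := d') (c := 0) l (fun x hx y hy => by
    rw [add_zero]; exact h x hx y hy)
  linarith

theorem walk_smul {α : Type} (d : α → α → ℝ) (u : ℝ) (l : List α) :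
    walk (fun x y => u * d x y) l = u * walk d l := by
  induction l with
  | nil => simp [walk]
  | cons a l ih =>
    cases l with
    | nil => simp [walk]
    | cons b l =>
      show u * d a b + walk (fun x y => u * d x y) (b :: l) = u * (d a b + walk d (b :: l))
      rw [ih]
      ring

theorem cyc_smul {α : Type} (d : α → α → ℝ) (u : ℝ) (l : List α) :
    cyc (fun x y => u * d x y) l = u * cyc d l := by
  cases l with
  | nil => simp [cyc]
  | cons a l => exact walk_smul d u _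

theorem cyc_zero {α : Type} (l : List α) : cyc (fun _ _ : α => (0 : ℝ)) l = 0 := by
  have := cyc_smul (fun _ _ : α => (0 : ℝ)) 0 l
  simpa using this

theorem cyc_nonneg {α : Type} {d : α → α → ℝ} (l : List α)
    (h : ∀ x ∈ l, ∀ y ∈ l, 0 ≤ d x y) : 0 ≤ cyc d l := by
  have := cyc_mono (d := fun _ _ => (0 : ℝ)) (d' := d) l h
  rwa [cyc_zero] at this

/-- the integer metric of the cluster -/
noncomputable def dd {n : ℕ} (F : Finset (Fin n)) (u : ℝ) (d : Fin n → Fin n → ℝ) :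
    Fin F.card → Fin F.card → ℕ :=
  fun x y => ⌈d (F.orderEmbOfFin rfl x) (F.orderEmbOfFin rfl y) / u⌉₊

theorem RMet.nonneg {n : ℕ} {d : Fin n → Fin n → ℝ} (hd : RMet d) (x y : Fin n) : 0 ≤ d x y := by
  by_cases h : x = y
  · rw [h, hd.met.self]
  · exact (hd.pos x y h).le

theorem imet {n : ℕ} {F : Finset (Fin n)} {u K : ℝ} {d : Fin n → Fin n → ℝ} (hu : 0 < u)
    (hd : RMet d) (hK : ∀ x ∈ F, ∀ y ∈ F, d x y ≤ K * u) : IMet ⌈K⌉₊ (dd F u d) where
  self x := by
    unfold dd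
    rw [hd.met.self, zero_div, Nat.ceil_zero]
  pos x y h := by
    unfold dd
    rw [Nat.one_le_ceil_iff]
    refine div_pos (hd.pos _ _ ?_) hu
    intro h'
    exact h ((F.orderEmbOfFin rfl).injective h')
  symm x y := by
    unfold dd
    rw [hd.met.symm]
  tri x y z := by
    unfold dd
    refine le_trans (Nat.ceil_mono ?_) (Nat.ceil_add_le _ _)
    rw [← add_div]
    exact div_le_div_of_nonneg_right (hd.met.tri _ _ _) hu.le
  bd x y := by
    unfold dd
    refine Nat.ceil_mono ?_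
    rw [div_le_iff₀ hu]
    exact hK _ (F.orderEmbOfFin_mem rfl x) _ (F.orderEmbOfFin_mem rfl y)

theorem IMet.isMet {N k : ℕ} {d : Fin N → Fin N → ℕ} (hd : IMet k d) :
    IsMet (fun x y => (d x y : ℝ)) where
  self x := by rw [hd.self]; simp
  symm x y := by rw [hd.symm]
  tri x y z := by exact_mod_cast hd.tri x y z

theorem tsp_le {n : ℕ} (hle : S_TSPLE) (hatt : S_TSPATT) {F : Finset (Fin n)} {u K : ℝ}
    {d : Fin n → Fin n → ℝ} (hu : 0 < u) (hd : RMet d)
    (hK : ∀ x ∈ F, ∀ y ∈ F, d x y ≤ K * u) : tsp d F ≤ u * tspI (dd F u d) := by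
  obtain ⟨l, hl2, -, hl3⟩ := att hatt (IMet.isMet (imet hu hd hK)) univ
  unfold tspI
  rw [← hl3, ← cyc_smul]
  have hcov : ∀ x ∈ F, x ∈ l.map (F.orderEmbOfFin rfl) := by
    intro x hx
    have : x ∈ Set.range (F.orderEmbOfFin rfl) := by
      rw [Finset.range_orderEmbOfFin]; exact hx
    obtain ⟨i, rfl⟩ := this
    refine List.mem_map_of_mem ?_
    exact (hl2 i).2 (mem_univ i)
  refine (hle _ d hd.met F _ hcov).trans ?_
  rw [cyc_map]
  refine cyc_mono l fun x _ y _ => ?_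
  unfold dd
  rw [mul_comm, ← div_le_iff₀ hu]
  exact Nat.le_ceil _

theorem tspI_le {n : ℕ} (hle : S_TSPLE) (hatt : S_TSPATT) {F : Finset (Fin n)} {u K : ℝ}
    {d : Fin n → Fin n → ℝ} (hu : 0 < u) (hd : RMet d)
    (hK : ∀ x ∈ F, ∀ y ∈ F, d x y ≤ K * u) : u * tspI (dd F u d) ≤ tsp d F + F.card * u := by
  obtain ⟨l, hl2, hl1, hl3⟩ := att hatt hd.met F
  have hr : l ∈ Set.range (List.map (F.orderEmbOfFin rfl)) := by
    rw [Set.range_list_map]
    intro x hx
    rw [Finset.range_orderEmbOfFin]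
    exact (hl2 x).1 hx
  obtain ⟨l', hl'⟩ := hr
  have hlen : l'.length = F.card := by
    rw [← List.length_map (F.orderEmbOfFin rfl), hl', hl1]
  have hcov : ∀ x ∈ (univ : Finset (Fin F.card)), x ∈ l' := by
    intro x _
    have h1 : F.orderEmbOfFin rfl x ∈ l := (hl2 _).2 (F.orderEmbOfFin_mem rfl x)
    rw [← hl', List.mem_map] at h1
    obtain ⟨y, hy, hxy⟩ := h1
    rw [← (F.orderEmbOfFin rfl).injective hxy]
    exact hy
  have h1 := hle _ _ (IMet.isMet (imet hu hd hK)) univ l' hcov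
  have h2 : cyc (fun x y => u * (dd F u d x y : ℝ)) l' ≤
      cyc (fun x y => d (F.orderEmbOfFin rfl x) (F.orderEmbOfFin rfl y)) l' + u * l'.length := by
    refine cyc_le l' fun x _ y _ => ?_
    unfold dd
    have h3 : ((⌈d (F.orderEmbOfFin rfl x) (F.orderEmbOfFin rfl y) / u⌉₊ : ℕ) : ℝ) <
        d (F.orderEmbOfFin rfl x) (F.orderEmbOfFin rfl y) / u + 1 :=
      Nat.ceil_lt_add_one (div_nonneg (RMet.nonneg hd _ _) hu.le)
    have h4 : u * (d (F.orderEmbOfFin rfl x) (F.orderEmbOfFin rfl y) / u) =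
        d (F.orderEmbOfFin rfl x) (F.orderEmbOfFin rfl y) := by field_simp
    nlinarith
  rw [cyc_smul, ← cyc_map, hl', hl3, hlen] at h2
  unfold tspI
  have h5 := mul_le_mul_of_nonneg_left h1 hu.le
  linarith

theorem tsp_nonneg {n : ℕ} (hatt : S_TSPATT) {F : Finset (Fin n)} {d : Fin n → Fin n → ℝ}
    (hd : RMet d) : 0 ≤ tsp d F := by
  obtain ⟨l, -, -, hl3⟩ := att hatt hd.met F
  rw [← hl3]
  exact cyc_nonneg l fun x _ y _ => RMet.nonneg hd x y

theorem tsp_congr {n : ℕ} (hle : S_TSPLE) (hatt : S_TSPATT) {F : Finset (Fin n)}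
    {d d' : Fin n → Fin n → ℝ} (hd : RMet d) (hd' : RMet d')
    (h : ∀ x ∈ F, ∀ y ∈ F, d x y = d' x y) : tsp d' F ≤ tsp d F := by
  obtain ⟨l, hm, -, hl3⟩ := att hatt hd.met F
  rw [← hl3]
  refine (hle _ d' hd'.met F l fun x hx => (hm x).2 hx).trans ?_
  refine cyc_mono l fun x hx y hy => ?_
  rw [h x ((hm x).1 hx) y ((hm y).1 hy)]

theorem read_all {n : ℕ} (hle : S_TSPLE) (hatt : S_TSPATT) (hloc : S_LOCBASIC)
    (F : Finset (Fin n)) : ∃ P : DT (Fin n) ℝ ℝ, ∀ d, RMet d →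
      P.eval d = tsp d F ∧ P.cost d ≤ F.card ^ 2 := by
  obtain ⟨h1, -, h3, -, h5, -, h7⟩ := hloc
  have a := h7 (Fin n) ℝ ℝ (Fin n × Fin n) {d | RMet d} 1 (F ×ˢ F) (fun i d => d i.1 i.2)
    (fun i _ => h5 (Fin n) ℝ {d | RMet d} i.1 i.2)
  have b := h3 (Fin n) ℝ _ ℝ {d | RMet d} _ _ (fun d => tsp d F) a ?_
  · obtain ⟨P, hP⟩ := b
    refine ⟨P, fun d hd => ⟨(hP d hd).1, (hP d hd).2.trans ?_⟩⟩
    rw [Finset.card_product, mul_one, sq]
  · intro d hd d' hd' hh
    have hh' : ∀ x ∈ F, ∀ y ∈ F, d x y = d' x y := by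
      intro x hx y hy
      have h9 := congrFun hh (x, y)
      have h10 : (x, y) ∈ F ×ˢ F := Finset.mem_product.2 ⟨hx, hy⟩
      simpa only [h10, if_true] using h9
    exact le_antisymm (tsp_congr hle hatt hd' hd fun x hx y hy => (hh' x hx y hy).symm)
      (tsp_congr hle hatt hd hd' hh')

end Pool.Agent.H603.T.SUB

namespace Pool.Agent.H603.T

open Finset Classical
open Pool.Agent.H699.T SUB

theorem t_SUB : S_TSPLE → S_TSPATT → S_EXBASIC → S_LOCBASIC → S_COMAP → S_BND → S_SUB := by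
  intro hle hatt _ hloc _ hbnd
  obtain ⟨δ0, hδ0, hδ1, hB⟩ := hbnd
  refine ⟨δ0, hδ0, hδ1, fun K ε η pf hK hε hη hpf => ?_⟩
  obtain ⟨N1, hN1⟩ := hB ⌈K⌉₊ ε η pf hε hη hpf
  refine ⟨N1 ^ 2, fun n => ?_⟩
  have key : ∀ N : ℕ, ∃ m : ℕ, 0 < m ∧ ∃ P : Fin m → DT (Fin N) ℕ ℝ, N1 ≤ N →
      (∀ s d, IMet ⌈K⌉₊ d → ((P s).cost d : ℝ) ≤ η * N ^ 2) ∧
      ∀ d, IMet ⌈K⌉₊ d → pr (fun s : Fin m => ¬ (tspI d ≤ (P s).eval d ∧
        (P s).eval d ≤ (2 - δ0) * tspI d + ε * N)) ≤ pf := by
    intro N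
    by_cases hN : N1 ≤ N
    · obtain ⟨m, hm, P, hP⟩ := hN1 N hN
      exact ⟨m, hm, P, fun _ => hP⟩
    · exact ⟨1, one_pos, fun _ => DT.done 0, fun h => absurd h hN⟩
  choose m hm P hP using key
  choose R hR using fun F : Finset (Fin n) => read_all hle hatt hloc F
  have : ∀ i : Fin (n + 1), Nonempty (Fin (m i)) := fun i => ⟨⟨0, hm i⟩⟩
  let Ω : Type := (i : Fin (n + 1)) → Fin (m i)
  have hcF : ∀ F : Finset (Fin n), F.card < n + 1 := fun F => by
    have := Finset.card_le_univ F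
    rw [Fintype.card_fin] at this
    omega
  let eq : Fin (Fintype.card Ω) ≃ Ω := (Fintype.equivFin Ω).symm
  refine ⟨Fintype.card Ω, Fintype.card_pos, fun s F u => if N1 ≤ F.card then
    cm (F.orderEmbOfFin rfl) (fun x : ℝ => ⌈x / u⌉₊) (fun x : ℝ => u * x)
      (P F.card (eq s ⟨F.card, hcF F⟩)) else R F, fun F u d hu hd hF => ?_⟩
  by_cases hN : N1 ≤ F.card
  · simp only [hN, if_true]
    obtain ⟨hP1, hP2⟩ := hP F.card hN
    refine ⟨fun s => ?_, ?_⟩
    · rw [cm_cost]
      have h1 := hP1 (eq s ⟨F.card, hcF F⟩) (dd F u d) (imet hu hd hF)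
      have h2 : (0 : ℝ) ≤ ((N1 ^ 2 : ℕ) : ℝ) := Nat.cast_nonneg _
      exact h1.trans (by linarith)
    · have h1 := hP2 (dd F u d) (imet hu hd hF)
      have h2 : pr (fun s : Fin (Fintype.card Ω) =>
          ¬ (tspI (dd F u d) ≤ (P F.card (eq s ⟨F.card, hcF F⟩)).eval (dd F u d) ∧
          (P F.card (eq s ⟨F.card, hcF F⟩)).eval (dd F u d) ≤
            (2 - δ0) * tspI (dd F u d) + ε * F.card)) =
          pr (fun s : Fin (m F.card) => ¬ (tspI (dd F u d) ≤ (P F.card s).eval (dd F u d) ∧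
            (P F.card s).eval (dd F u d) ≤ (2 - δ0) * tspI (dd F u d) + ε * F.card)) :=
        (pr_equiv eq (fun ω : Ω => ¬ (tspI (dd F u d) ≤
          (P F.card (ω ⟨F.card, hcF F⟩)).eval (dd F u d) ∧
          (P F.card (ω ⟨F.card, hcF F⟩)).eval (dd F u d) ≤
            (2 - δ0) * tspI (dd F u d) + ε * F.card))).trans
          (pr_pi (fun i : Fin (n + 1) => Fin (m i)) ⟨F.card, hcF F⟩
            (fun s => ¬ (tspI (dd F u d) ≤ (P F.card s).eval (dd F u d) ∧
            (P F.card s).eval (dd F u d) ≤ (2 - δ0) * tspI (dd F u d) + ε * F.card)))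
      rw [← h2] at h1
      refine le_trans ?_ h1
      unfold pr ex
      refine div_le_div_of_nonneg_right (Finset.sum_le_sum fun s _ => ?_) (Nat.cast_nonneg _)
      have himp : (tspI (dd F u d) ≤ (P F.card (eq s ⟨F.card, hcF F⟩)).eval (dd F u d) ∧
          (P F.card (eq s ⟨F.card, hcF F⟩)).eval (dd F u d) ≤
            (2 - δ0) * tspI (dd F u d) + ε * F.card) →
          (tsp d F ≤ (cm (F.orderEmbOfFin rfl) (fun x : ℝ => ⌈x / u⌉₊) (fun x : ℝ => u * x)
            (P F.card (eq s ⟨F.card, hcF F⟩))).eval d ∧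
          (cm (F.orderEmbOfFin rfl) (fun x : ℝ => ⌈x / u⌉₊) (fun x : ℝ => u * x)
            (P F.card (eq s ⟨F.card, hcF F⟩))).eval d ≤
            (2 - δ0) * tsp d F + (2 + ε) * F.card * u) := by
        rintro ⟨g1, g2⟩
        rw [cm_eval]
        have g3 : (fun x y => ⌈d (F.orderEmbOfFin rfl x) (F.orderEmbOfFin rfl y) / u⌉₊) =
          dd F u d := rfl
        rw [g3]
        have g4 := tsp_le hle hatt hu hd hF
        have g5 := tspI_le hle hatt hu hd hF
        refine ⟨g4.trans (mul_le_mul_of_nonneg_left g1 hu.le), ?_⟩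
        have g6 := mul_le_mul_of_nonneg_left g2 hu.le
        refine g6.trans ?_
        have g7 : (0 : ℝ) ≤ F.card := Nat.cast_nonneg _
        have g8 := mul_le_mul_of_nonneg_left g5 (show (0 : ℝ) ≤ 2 - δ0 by linarith)
        nlinarith [mul_nonneg g7 hu.le, mul_nonneg hδ0.le (mul_nonneg g7 hu.le)]
      by_cases hq : (tspI (dd F u d) ≤ (P F.card (eq s ⟨F.card, hcF F⟩)).eval (dd F u d) ∧
          (P F.card (eq s ⟨F.card, hcF F⟩)).eval (dd F u d) ≤
            (2 - δ0) * tspI (dd F u d) + ε * F.card)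
      · rw [if_neg (not_not.2 (himp hq)), if_neg (not_not.2 hq)]
      · rw [if_pos hq]
        split_ifs <;> norm_num
  · simp only [hN, if_false]
    have hRd := hR F d hd
    refine ⟨fun s => ?_, ?_⟩
    · have h1 : (R F).cost d ≤ N1 ^ 2 := hRd.2.trans (Nat.pow_le_pow_left (by omega) 2)
      have h2 : ((R F).cost d : ℝ) ≤ ((N1 ^ 2 : ℕ) : ℝ) := by exact_mod_cast h1
      have h3 : (0 : ℝ) ≤ η * F.card ^ 2 := by positivity
      linarith
    · rw [pr_zero]
      · exact hpf.le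
      · intro s
        rw [not_not, hRd.1]
        refine ⟨le_rfl, ?_⟩
        have h1 := tsp_nonneg hatt (F := F) hd
        have h2 : (0 : ℝ) ≤ (2 + ε) * F.card * u := by positivity
        nlinarith

end Pool.Agent.H603.T
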